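import Mathlib
import Pool.Agent.Q186.AZ.Che
import Pool.Agent.Q186.AZ.Jul

/-!
# The polynomials `P ∘ T_n`, `T_n` the Chebyshev polynomials, have no invariant line fields for
# almost all `n`

Let `P` be a nonconstant complex polynomial which maps only finitely many points of the segment
`[-1, 1]` into this segment (this is so whenever `P` has a nonreal coefficient). Call `n`
exceptional (for `δ`) if the orbit under `P ∘ T_n` of some critical value passes through cosines of
rational multiples of `π` until it arrives at a point of the segment which is not one, and whose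
image has distance at most `δ` from the segment. We take `δ = C / n`, where `C` depends on `P`.

(1) For all large `n` which are not exceptional, every critical point of `P ∘ T_n` escapes, or is
attracted by a sink, or lands on a repelling cycle; almost every point of the plane escapes or is
attracted by a sink; the Julia set has area zero and there is no invariant line field on it.

(2) The number of exceptional `n` in the intervals `[N, N + L)` is bounded, for `N ≥ N₀ (L)`, by a
constant which does not depend on `L`; so (1) holds for a set of `n` of density one.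

The maps need not be hyperbolic: (3) for instance none of the polynomials `1 + i (T_n - 1)`, `n ≥ 3`,
is hyperbolic, and for all large `n` their Julia sets have area zero and carry no invariant line
fields.
-/

set_option autoImplicit false

open MeasureTheory Filter Topology Polynomial

namespace Pool.Agent.Results.MP_70a088_an.ChebyshevCompositions

/-- The polynomial as a self-map of the plane. -/
def map (T : ℂ[X]) : ℂ → ℂ := fun z : ℂ => T.eval z

/-- The orbit of `z` escapes to infinity. -/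
def Escapes (T : ℂ[X]) (z : ℂ) : Prop :=
  Tendsto (fun k : ℕ => ‖(map T)^[k] z‖) atTop atTop

/-- The orbit of `z` is attracted by a sink (attracting periodic point) of `T`. -/
def Attracted (T : ℂ[X]) (z : ℂ) : Prop :=
  ∃ n : ℕ, 0 < n ∧ ∃ x : ℂ, (map T)^[n] x = x ∧ ‖deriv ((map T)^[n]) x‖ < 1 ∧
    Tendsto (fun k : ℕ => (map T)^[n * k] z) atTop (𝓝 x)

/-- The orbit of `c` lands on a repelling periodic point. -/
def Lands (T : ℂ[X]) (c : ℂ) : Prop :=
  ∃ k p : ℕ, 0 < p ∧ (map T)^[p] ((map T)^[k] c) = (map T)^[k] c ∧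
    1 < ‖deriv ((map T)^[p]) ((map T)^[k] c)‖

/-- `T` is hyperbolic: every critical point escapes or is attracted by a sink. -/
def Hyperbolic (T : ℂ[X]) : Prop :=
  ∀ c : ℂ, (derivative T).eval c = 0 → Escapes T c ∨ Attracted T c

/-- The Julia set: the boundary of the set of the points whose orbits do not tend to infinity. -/
def julia (T : ℂ[X]) : Set ℂ := frontier {z : ℂ | ¬ Escapes T z}

/-- `μ` is an invariant line field supported on the Julia set of `T`; it is of absolute value one on
the set `S` of positive measure, and vanishes off `S`. -/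
structure LineField (T : ℂ[X]) (μ : ℂ → ℂ) (S : Set ℂ) : Prop where
  meas : Measurable μ
  one : ∀ z ∈ S, ‖μ z‖ = 1
  off : ∀ z, z ∉ S → μ z = 0
  pos : 0 < volume S
  sub : S ⊆ julia T
  inv : ∀ᵐ z : ℂ, μ (map T z) * (starRingEnd ℂ (deriv (map T) z) / deriv (map T) z) = μ z

/-- `T` has an invariant line field supported on its Julia set. -/
def HasLineField (T : ℂ[X]) : Prop := ∃ (μ : ℂ → ℂ) (S : Set ℂ), LineField T μ S

/-- `T P n` is the polynomial `P ∘ T_n`, where `T_n` is the Chebyshev polynomial of degree `n`,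
`T_n (cos θ) = cos (n θ)`. -/
noncomputable def T (P : ℂ[X]) (n : ℕ) : ℂ[X] := P.comp (Chebyshev.T ℂ n)

/-- `x` belongs to the segment `[-1, 1]`. -/
def InSegment (x : ℂ) : Prop := ∃ t : ℝ, |t| ≤ 1 ∧ x = t

/-- `P` maps only finitely many points of the segment `[-1, 1]` into this segment. -/
def Transverse (P : ℂ[X]) : Prop := {u : ℂ | InSegment u ∧ InSegment (P.eval u)}.Finite

/-- `v` is `P 1`, `P (-1)` or a critical value of `P`. These are the critical values of all the
polynomials `P ∘ T_n`, `n ≥ 3`. -/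
def CriticalValue (P : ℂ[X]) (v : ℂ) : Prop :=
  v = P.eval 1 ∨ v = P.eval (-1) ∨ ∃ y : ℂ, (derivative P).eval y = 0 ∧ v = P.eval y

/-- `x` is the cosine of a rational multiple of `π`. -/
def RationalCosine (x : ℂ) : Prop := ∃ r : ℚ, x = Complex.cos (r * Real.pi)

/-- The orbit under `P ∘ T_n` of some critical value leaves the cosines of rational multiples of `π`
at a point of the segment `[-1, 1]` whose image has distance at most `δ` from a point of the
segment. -/
def Exceptional (P : ℂ[X]) (δ : ℝ) (n : ℕ) : Prop :=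
  ∃ v : ℂ, CriticalValue P v ∧ ∃ j : ℕ, (∀ i < j, RationalCosine ((map (T P n))^[i] v)) ∧
    InSegment ((map (T P n))^[j] v) ∧ ¬ RationalCosine ((map (T P n))^[j] v) ∧
    ∃ t : ℝ, |t| ≤ 1 ∧ ‖(map (T P n))^[j + 1] v - t‖ ≤ δ

/-- Almost every point of the plane escapes or is attracted by a sink, and the Julia set has area
zero and carries no invariant line field. -/
def Tame (T : ℂ[X]) : Prop :=
  (∀ᵐ z : ℂ, Escapes T z ∨ Attracted T z) ∧ volume (julia T) = 0 ∧ ¬ HasLineField T

/-- The polynomial `1 + i (z - 1)`. -/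
noncomputable def ex : ℂ[X] := 1 + C Complex.I * (X - 1)

theorem tame_of {T : ℂ[X]} (hT : 2 ≤ T.natDegree)
    (h : ∀ c : ℂ, (derivative T).eval c = 0 → (Escapes T c ∨ Attracted T c) ∨ Lands T c) :
    Tame T := by
  have h1 : volume {z : ℂ | ¬ (Escapes T z ∨ Attracted T z)} = 0 :=
    Pool.Agent.Q186.AZ.poly_null hT h
  have h2 : volume (julia T) = 0 := by
    refine measure_mono_null (fun z hz => ?_) h1
    exact Pool.Agent.Q186.AZ.julia_sub hT hz
  refine ⟨?_, h2, ?_⟩
  · rw [ae_iff]; exact h1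
  · rintro ⟨μ, S, hS⟩
    exact hS.pos.ne' (measure_mono_null hS.sub h2)

theorem degree_two {P : ℂ[X]} (hP : 1 ≤ P.natDegree) {n : ℕ} (hn : 2 ≤ n) :
    2 ≤ (T P n).natDegree := by
  have h1 : (Chebyshev.T ℂ n).natDegree = n := by
    rw [Chebyshev.natDegree_T]; simp
  unfold T
  rw [natDegree_comp, h1]
  nlinarith

theorem ex_eval (x : ℂ) : ex.eval x = 1 + Complex.I * (x - 1) := by simp [ex]

theorem ex_der : derivative ex = C Complex.I := by
  simp [ex]

theorem ex_natDegree : 1 ≤ ex.natDegree := by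
  by_contra h
  have h0 : ex.natDegree = 0 := by omega
  have h1 := ex_der
  rw [eq_C_of_natDegree_eq_zero h0, derivative_C, eq_comm, C_eq_zero] at h1
  exact Complex.I_ne_zero h1

theorem ex_map_one (n : ℕ) : map (T ex n) 1 = 1 := by
  show (ex.comp (Chebyshev.T ℂ n)).eval 1 = 1
  rw [eval_comp, Chebyshev.T_eval_one, ex_eval]
  ring

theorem ex_fix (n j : ℕ) : (map (T ex n))^[j] 1 = 1 :=
  Function.iterate_fixed (ex_map_one n) j

/-- **No invariant line fields for the polynomials `P ∘ T_n`.** -/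
theorem result :
    (∀ P : ℂ[X], 1 ≤ P.natDegree → Transverse P →
      ∃ (C : ℝ) (n₀ K : ℕ),
        (∀ n : ℕ, n₀ ≤ n → ¬ Exceptional P (C / n) n →
          (∀ c : ℂ, (derivative (T P n)).eval c = 0 →
            Escapes (T P n) c ∨ Attracted (T P n) c ∨ Lands (T P n) c) ∧ Tame (T P n)) ∧
        (∀ L : ℕ, ∃ N₀ : ℕ, ∀ N : ℕ, N₀ ≤ N →
          {n : ℕ | (N ≤ n ∧ n < N + L) ∧ Exceptional P (C / n) n}.ncard ≤ K) ∧
        Tendsto (fun N : ℕ => (({n : ℕ | n < N ∧ Tame (T P n)}.ncard : ℕ) : ℝ) / N) atTop (𝓝 1)) ∧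
    (∀ P : ℂ[X], (∃ k : ℕ, (P.coeff k).im ≠ 0) → Transverse P) ∧
    (∀ n : ℕ, 3 ≤ n → ¬ Hyperbolic (T ex n)) ∧
    (∀ᶠ n : ℕ in atTop, Tame (T ex n)) := by
  have main : ∀ P : ℂ[X], 1 ≤ P.natDegree → Transverse P →
      ∃ (C : ℝ) (n₀ K : ℕ),
        (∀ n : ℕ, n₀ ≤ n → ¬ Exceptional P (C / n) n →
          (∀ c : ℂ, (derivative (T P n)).eval c = 0 →
            Escapes (T P n) c ∨ Attracted (T P n) c ∨ Lands (T P n) c) ∧ Tame (T P n)) ∧
        (∀ L : ℕ, ∃ N₀ : ℕ, ∀ N : ℕ, N₀ ≤ N →
          {n : ℕ | (N ≤ n ∧ n < N + L) ∧ Exceptional P (C / n) n}.ncard ≤ K) ∧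
        Tendsto (fun N : ℕ => (({n : ℕ | n < N ∧ Tame (T P n)}.ncard : ℕ) : ℝ) / N) atTop
          (𝓝 1) := by
    intro P hP hZ
    obtain ⟨C, hC, n₀, hn₀, h⟩ := Pool.Agent.Q186.AZ.che_class hP hZ
    obtain ⟨K, hK⟩ := Pool.Agent.Q189.CH.window hP hZ
    have hw : ∀ L : ℕ, ∃ N₀ : ℕ, ∀ N, N₀ ≤ N →
        ({n : ℕ | Exceptional P (C / n) n} ∩ Set.Ico N (N + L)).ncard ≤ K := hK C
    have h1 : ∀ n : ℕ, n₀ ≤ n → ¬ Exceptional P (C / n) n →
        ∀ c : ℂ, (derivative (T P n)).eval c = 0 →
          (Escapes (T P n) c ∨ Attracted (T P n) c) ∨ Lands (T P n) c := h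
    have h2 : ∀ n : ℕ, n₀ ≤ n → ¬ Exceptional P (C / n) n → Tame (T P n) := fun n hn he =>
      tame_of (degree_two hP (hn₀.trans hn)) (h1 n hn he)
    refine ⟨C, n₀, K, fun n hn he => ⟨fun c hc => or_assoc.mp (h1 n hn he c hc), h2 n hn he⟩,
      fun L => ?_, ?_⟩
    · obtain ⟨N₀, hN₀⟩ := hw L
      refine ⟨N₀, fun N hN => ?_⟩
      convert hN₀ N hN using 2
      ext n
      simp only [Set.mem_ofPred_eq, Set.mem_inter_iff, Set.mem_Ico]
      exact and_comm
    · have h4 := Pool.Agent.Q189.CH.density_periodic (M := 1) one_pos (p := fun _ => True)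
        (H := {n : ℕ | Tame (T P n)})
        (S := {n : ℕ | Exceptional P (C / n) n}) (n₀ := n₀) (fun _ _ _ => Iff.rfl)
        (Pool.Agent.Q189.CH.density_of_window hw) (fun n hn hS =>
          ⟨fun _ => trivial, fun _ => h2 n hn hS⟩)
      have h5 : {a : ℕ | a < 1 ∧ True} = {0} := by ext a; simp
      rw [h5, Set.ncard_singleton] at h4
      have h6 : ∀ N : ℕ, {n : ℕ | n < N ∧ Tame (T P n)} = {n : ℕ | Tame (T P n)} ∩ Set.Iio N := by
        intro N
        ext n
        simp only [Set.mem_ofPred_eq, Set.mem_inter_iff, Set.mem_Iio]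
        exact and_comm
      simp only [h6]
      simpa using h4
  have hex : Transverse ex := Pool.Agent.Q189.CH.FZ_of ⟨1, by
    have : ex.coeff 1 = Complex.I := by
      have h1 : ex = C (1 - Complex.I) + C Complex.I * X := by
        rw [ex, C_sub, C_1]; ring
      rw [h1]
      simp [coeff_one, coeff_C]
    rw [this]
    simp⟩
  have hcv : ∀ v, CriticalValue ex v → v = 1 ∨ v = 1 - 2 * Complex.I := by
    rintro v (h | h | ⟨y, hy, -⟩)
    · left; rw [h, ex_eval]; ring
    · right; rw [h, ex_eval]; ring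
    · exfalso
      rw [ex_der, eval_C] at hy
      exact Complex.I_ne_zero hy
  refine ⟨main, fun P h => Pool.Agent.Q189.CH.FZ_of h, fun n hn => ?_, ?_⟩
  · obtain ⟨c, hc, hcv⟩ := Pool.Agent.Q189.CH.crit_of_cv (P := ex) hn (v := 1)
      (Or.inl (by rw [ex_eval]; ring))
    have hcv' : map (T ex n) c = 1 := hcv
    have horb : ∀ j, (map (T ex n))^[j + 1] c = 1 := by
      intro j
      rw [Function.iterate_succ_apply, hcv', ex_fix]
    refine Pool.Agent.Q189.CH.not_hyp_of (X := {1}) (Set.finite_singleton 1) hc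
      (fun j => horb j) fun j => ?_
    have h1 : (Pool.Agent.Q189.CH.map (T ex n))^[j + 1] c = 1 := horb j
    have h2 : (derivative (T ex n)).eval 1 =
        (derivative ex).eval (Pool.Agent.Q189.CH.tn n 1) * (derivative (Chebyshev.T ℂ n)).eval 1 :=
      Pool.Agent.Q189.CH.dF ex n 1
    have h3 : (1 : ℝ) ≤ (n : ℝ) ^ 2 := one_le_pow₀ (by exact_mod_cast (by omega : 1 ≤ n))
    calc (1 : ℝ) ≤ (n : ℝ) ^ 2 := h3
      _ = ‖(derivative (T ex n)).eval 1‖ := by
        rw [h2, ex_der, eval_C, norm_mul, Complex.norm_I, one_mul,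
          Pool.Agent.Q189.CH.dT_one n (by norm_num)]
      _ = _ := by rw [← h1]
  · obtain ⟨C, n₀, K, h, -⟩ := main ex ex_natDegree hex
    filter_upwards [eventually_ge_atTop n₀] with n hn
    refine (h n hn ?_).2
    rintro ⟨v, hv, j, h1, h2, h3, -⟩
    rcases hcv v hv with rfl | rfl
    · apply h3
      rw [ex_fix]
      exact ⟨0, by simp⟩
    · have h4 : ¬ InSegment (1 - 2 * Complex.I) := by
        rintro ⟨t, -, ht⟩
        have := congrArg Complex.im ht
        simp at this
      rcases Nat.eq_zero_or_pos j with rfl | hj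
      · exact h4 h2
      · obtain ⟨r, hr⟩ := h1 0 hj
        exact h4 (Pool.Agent.Q189.CH.Sp.seg ⟨r, hr⟩)

end Pool.Agent.Results.MP_70a088_an.ChebyshevCompositions
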