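import Mathlib
import Pool.Agent.Q186.AZ.Iter
import Pool.Agent.Q186.AZ.Jul

/-!
# The polynomials `f (g^n (z)) + s` have no invariant line fields, for almost every `s`

Let `g` be a polynomial of degree at least two, each of whose critical points escapes, or is
attracted by a sink, or lands on a repelling cycle (for example `g` hyperbolic, or `z ^ 2 - 2`, or
`z ^ 2 + i`), and let `f` be any nonconstant polynomial; `g^n` is the `n`-th iterate. The marked
values of `f, g` are the critical values of `f`, the values of `f` on the forward orbits of the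
critical points of `g`, and the values of `f` at the sinks of `g`; they form a countable set.

(1) If every marked value escapes or is attracted by a sink under `g`, then for all large `n` the
polynomial `f (g^n (z))` is hyperbolic, its Julia set has area zero and it has no invariant line
field on its Julia set.

(2) For every `s` outside an explicit null set (a countable union of translates of the set of the
points which neither escape nor are attracted by a sink of `g`) the same holds for
`f (g^n (z)) + s` for all large `n`.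
-/

set_option autoImplicit false

open MeasureTheory Filter Topology Polynomial

namespace Pool.Agent.Results.MP_70a088_an.IteratesAlmostEverywhere

/-- The polynomial as a self-map of the plane. -/
def map (T : ℂ[X]) : ℂ → ℂ := fun z : ℂ => T.eval z

/-- The orbit of `z` escapes to infinity. -/
def Escapes (T : ℂ[X]) (z : ℂ) : Prop :=
  Tendsto (fun k : ℕ => ‖(map T)^[k] z‖) atTop atTop

/-- The orbit of `z` is attracted by a sink (attracting periodic point) of `T`. -/
def Attracted (T : ℂ[X]) (z : ℂ) : Prop :=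
  ∃ n : ℕ, 0 < n ∧ ∃ x : ℂ, (map T)^[n] x = x ∧ ‖deriv ((map T)^[n]) x‖ < 1 ∧
    Tendsto (fun k : ℕ => (map T)^[n * k] z) atTop (𝓝 x)

/-- The orbit of `c` lands on a repelling periodic point. -/
def Lands (T : ℂ[X]) (c : ℂ) : Prop :=
  ∃ k p : ℕ, 0 < p ∧ (map T)^[p] ((map T)^[k] c) = (map T)^[k] c ∧
    1 < ‖deriv ((map T)^[p]) ((map T)^[k] c)‖

/-- `T` is hyperbolic: every critical point escapes or is attracted by a sink. -/
def Hyperbolic (T : ℂ[X]) : Prop :=
  ∀ c : ℂ, (derivative T).eval c = 0 → Escapes T c ∨ Attracted T c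

/-- The Julia set: the boundary of the set of the points whose orbits do not tend to infinity. -/
def julia (T : ℂ[X]) : Set ℂ := frontier {z : ℂ | ¬ Escapes T z}

/-- `μ` is an invariant line field supported on the Julia set of `T`; it is of absolute value one on
the set `S` of positive measure, and vanishes off `S`. -/
structure LineField (T : ℂ[X]) (μ : ℂ → ℂ) (S : Set ℂ) : Prop where
  meas : Measurable μ
  one : ∀ z ∈ S, ‖μ z‖ = 1
  off : ∀ z, z ∉ S → μ z = 0
  pos : 0 < volume S
  sub : S ⊆ julia T
  inv : ∀ᵐ z : ℂ, μ (map T z) * (starRingEnd ℂ (deriv (map T) z) / deriv (map T) z) = μ z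

/-- `T` has an invariant line field supported on its Julia set. -/
def HasLineField (T : ℂ[X]) : Prop := ∃ (μ : ℂ → ℂ) (S : Set ℂ), LineField T μ S

/-- The marked values of the pair `f, g`: the critical values of `f`, the values of `f` on the
forward orbits of the critical points of `g`, and the values of `f` at the sinks of `g`. -/
def Marked (f g : ℂ[X]) : Set ℂ :=
  {m | (∃ y : ℂ, (derivative f).eval y = 0 ∧ m = f.eval y) ∨
    (∃ (c : ℂ) (k : ℕ), (derivative g).eval c = 0 ∧ 1 ≤ k ∧ m = f.eval ((map g)^[k] c)) ∨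
    ∃ a : ℂ, (∃ p : ℕ, 0 < p ∧ (map g)^[p] a = a ∧ ‖deriv ((map g)^[p]) a‖ < 1) ∧ m = f.eval a}

/-- `T` is hyperbolic, almost every point of the plane escapes or is attracted by a sink, and the
Julia set has area zero and carries no invariant line field. -/
def Tame (T : ℂ[X]) : Prop :=
  Hyperbolic T ∧ (∀ᵐ z : ℂ, Escapes T z ∨ Attracted T z) ∧ volume (julia T) = 0 ∧ ¬ HasLineField T

theorem tame_of {T : ℂ[X]} (hT : 2 ≤ T.natDegree) (h : Hyperbolic T) : Tame T := by
  have h1 : volume {z : ℂ | ¬ (Escapes T z ∨ Attracted T z)} = 0 :=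
    Pool.Agent.Q186.AZ.poly_null hT fun c hc => Or.inl (h c hc)
  have h2 : volume (julia T) = 0 := by
    refine measure_mono_null (fun z hz => ?_) h1
    exact Pool.Agent.Q186.AZ.julia_sub hT hz
  refine ⟨h, ?_, h2, ?_⟩
  · rw [ae_iff]; exact h1
  · rintro ⟨μ, S, hS⟩
    exact hS.pos.ne' (measure_mono_null hS.sub h2)

theorem natDegree_iter {g : ℂ[X]} (n : ℕ) : (g.comp^[n] X).natDegree = g.natDegree ^ n := by
  rw [natDegree_iterate_comp, natDegree_X, mul_one]

theorem degree_two {f g : ℂ[X]} (hf : 1 ≤ f.natDegree) (hg : 2 ≤ g.natDegree) {n : ℕ}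
    (hn : 1 ≤ n) : 2 ≤ (f.comp (g.comp^[n] X)).natDegree := by
  rw [natDegree_comp, natDegree_iter]
  have h1 : 2 ^ n ≤ g.natDegree ^ n := Nat.pow_le_pow_left hg n
  have h2 : 2 ≤ 2 ^ n := by
    calc 2 = 2 ^ 1 := (pow_one 2).symm
      _ ≤ 2 ^ n := Nat.pow_le_pow_right (by norm_num) hn
  calc 2 ≤ 1 * g.natDegree ^ n := by omega
    _ ≤ f.natDegree * g.natDegree ^ n := Nat.mul_le_mul_right _ hf

/-- **No invariant line fields for `f (g^n (z)) + s`.** -/
theorem result (g : ℂ[X]) (hg : 2 ≤ g.natDegree)
    (hcr : ∀ c : ℂ, (derivative g).eval c = 0 → (Escapes g c ∨ Attracted g c) ∨ Lands g c)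
    (f : ℂ[X]) (hf : 1 ≤ f.natDegree) :
    (Marked f g).Countable ∧
    ((∀ m ∈ Marked f g, Escapes g m ∨ Attracted g m) →
      ∀ᶠ n : ℕ in atTop, Tame (f.comp (g.comp^[n] X))) ∧
    (∀ s : ℂ, (∀ m ∈ Marked f g, Escapes g (m + s) ∨ Attracted g (m + s)) →
      ∀ᶠ n : ℕ in atTop, Tame (f.comp (g.comp^[n] X) + C s)) ∧
    (∀ᵐ s : ℂ, ∀ m ∈ Marked f g, Escapes g (m + s) ∨ Attracted g (m + s)) ∧
    (∀ᵐ s : ℂ, ∀ᶠ n : ℕ in atTop, Tame (f.comp (g.comp^[n] X) + C s)) := by
  have hMc : (Marked f g).Countable := Pool.Agent.H400R3.HI.mk_countable hg hf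
  have hgl : Pool.Agent.Q186.AZ.TC g := hcr
  have hvol : volume {z : ℂ | ¬ (Escapes g z ∨ Attracted g z)} = 0 :=
    Pool.Agent.Q186.AZ.poly_null hg hgl
  have key : ∀ s : ℂ, (∀ m ∈ Marked f g, Escapes g (m + s) ∨ Attracted g (m + s)) →
      ∀ᶠ n : ℕ in atTop, Tame (f.comp (g.comp^[n] X) + C s) := by
    intro s hs
    have hf' : 1 ≤ (f + C s).natDegree := by rwa [natDegree_add_C]
    have h2 := Pool.Agent.Q186.AZ.main' hg hgl hf' fun m hm => by
      have := hs _ (Pool.Agent.H400R3.HI.mk_add_C f g s hm)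
      rwa [sub_add_cancel] at this
    filter_upwards [h2, eventually_ge_atTop 1] with n hn hn1
    rw [add_comp, C_comp] at hn
    refine tame_of ?_ hn
    rw [natDegree_add_C]
    exact degree_two hf hg hn1
  have hae : ∀ᵐ s : ℂ, ∀ m ∈ Marked f g, Escapes g (m + s) ∨ Attracted g (m + s) := by
    rw [ae_ball_iff hMc]
    intro m _
    rw [ae_iff]
    exact (measure_preimage_add volume m {z : ℂ | ¬ (Escapes g z ∨ Attracted g z)}).trans hvol
  refine ⟨hMc, fun hM => ?_, key, hae, ?_⟩
  · have := key 0 (fun m hm => by rw [add_zero]; exact hM m hm)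
    simpa using this
  · filter_upwards [hae] with s hs using key s hs

end Pool.Agent.Results.MP_70a088_an.IteratesAlmostEverywhere
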