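import Mathlib
import Pool.Agent.Q186.AZ.Rate
import Pool.Agent.Q186.AZ.Jul

/-!
# Invariant line fields of `f (g^n (z)) + s`: exponentially small area, and dimension

Let `g` be a hyperbolic polynomial of degree at least two (every critical point escapes or is
attracted by a sink) and let `f` be any nonconstant polynomial; `g^n` is the `n`-th iterate. Call a
polynomial tame if it is hyperbolic, almost every point of the plane escapes or is attracted by a
sink, and its Julia set has area zero and carries no invariant line field.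

(1) The set `E` of the parameters `s` such that `f (g^n (z)) + s` is not tame for infinitely many
`n` has Hausdorff dimension at most that of the set of the points which neither escape nor are
attracted under `g`, and this is at most a number `d < 2`.

(2) There is `c > 0`, which depends only on `g`, such that for all `f` and all `S` there is `K` with
`area {s : |s| ≤ S, f (g^n (z)) + s is not tame} ≤ K exp (- c n)` for all `n`.
-/

set_option autoImplicit false

open MeasureTheory Filter Topology Polynomial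

namespace Pool.Agent.Results.MP_70a088_an.IteratesExponentialRate

/-- The polynomial as a self-map of the plane. -/
def map (T : ℂ[X]) : ℂ → ℂ := fun z : ℂ => T.eval z

/-- The orbit of `z` escapes to infinity. -/
def Escapes (T : ℂ[X]) (z : ℂ) : Prop :=
  Tendsto (fun k : ℕ => ‖(map T)^[k] z‖) atTop atTop

/-- The orbit of `z` is attracted by a sink (attracting periodic point) of `T`. -/
def Attracted (T : ℂ[X]) (z : ℂ) : Prop :=
  ∃ n : ℕ, 0 < n ∧ ∃ x : ℂ, (map T)^[n] x = x ∧ ‖deriv ((map T)^[n]) x‖ < 1 ∧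
    Tendsto (fun k : ℕ => (map T)^[n * k] z) atTop (𝓝 x)

/-- The points which neither escape nor are attracted by a sink. -/
def bad (T : ℂ[X]) : Set ℂ := {z : ℂ | ¬ (Escapes T z ∨ Attracted T z)}

/-- `T` is hyperbolic: every critical point escapes or is attracted by a sink. -/
def Hyperbolic (T : ℂ[X]) : Prop :=
  ∀ c : ℂ, (derivative T).eval c = 0 → Escapes T c ∨ Attracted T c

/-- The Julia set: the boundary of the set of the points whose orbits do not tend to infinity. -/
def julia (T : ℂ[X]) : Set ℂ := frontier {z : ℂ | ¬ Escapes T z}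

/-- `μ` is an invariant line field supported on the Julia set of `T`; it is of absolute value one on
the set `S` of positive measure, and vanishes off `S`. -/
structure LineField (T : ℂ[X]) (μ : ℂ → ℂ) (S : Set ℂ) : Prop where
  meas : Measurable μ
  one : ∀ z ∈ S, ‖μ z‖ = 1
  off : ∀ z, z ∉ S → μ z = 0
  pos : 0 < volume S
  sub : S ⊆ julia T
  inv : ∀ᵐ z : ℂ, μ (map T z) * (starRingEnd ℂ (deriv (map T) z) / deriv (map T) z) = μ z

/-- `T` has an invariant line field supported on its Julia set. -/
def HasLineField (T : ℂ[X]) : Prop := ∃ (μ : ℂ → ℂ) (S : Set ℂ), LineField T μ S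

/-- `T` is hyperbolic, almost every point of the plane escapes or is attracted by a sink, and the
Julia set has area zero and carries no invariant line field. -/
def Tame (T : ℂ[X]) : Prop :=
  Hyperbolic T ∧ (∀ᵐ z : ℂ, Escapes T z ∨ Attracted T z) ∧ volume (julia T) = 0 ∧ ¬ HasLineField T

theorem tame_of {T : ℂ[X]} (hT : 2 ≤ T.natDegree) (h : Hyperbolic T) : Tame T := by
  have h1 : volume {z : ℂ | ¬ (Escapes T z ∨ Attracted T z)} = 0 :=
    Pool.Agent.Q186.AZ.poly_null hT fun c hc => Or.inl (h c hc)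
  have h2 : volume (julia T) = 0 := by
    refine measure_mono_null (fun z hz => ?_) h1
    exact Pool.Agent.Q186.AZ.julia_sub hT hz
  refine ⟨h, ?_, h2, ?_⟩
  · rw [ae_iff]; exact h1
  · rintro ⟨μ, S, hS⟩
    exact hS.pos.ne' (measure_mono_null hS.sub h2)

theorem natDegree_iter {g : ℂ[X]} (n : ℕ) : (g.comp^[n] X).natDegree = g.natDegree ^ n := by
  rw [natDegree_iterate_comp, natDegree_X, mul_one]

theorem degree_two {f g : ℂ[X]} (hf : 1 ≤ f.natDegree) (hg : 2 ≤ g.natDegree) {n : ℕ}
    (hn : 1 ≤ n) : 2 ≤ (f.comp (g.comp^[n] X)).natDegree := by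
  rw [natDegree_comp, natDegree_iter]
  have h1 : 2 ^ n ≤ g.natDegree ^ n := Nat.pow_le_pow_left hg n
  have h2 : 2 ≤ 2 ^ n := by
    calc 2 = 2 ^ 1 := (pow_one 2).symm
      _ ≤ 2 ^ n := Nat.pow_le_pow_right (by norm_num) hn
  calc 2 ≤ 1 * g.natDegree ^ n := by omega
    _ ≤ f.natDegree * g.natDegree ^ n := Nat.mul_le_mul_right _ hf

/-- **Exponential rate and dimension for the invariant line fields of `f (g^n (z)) + s`.** -/
theorem result (g : ℂ[X]) (hg : 2 ≤ g.natDegree) (hyp : Hyperbolic g) :
    (∃ d : ℝ, d < 2 ∧ dimH (bad g) ≤ ENNReal.ofReal d) ∧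
    (∀ f : ℂ[X], 1 ≤ f.natDegree →
      dimH {s : ℂ | ¬ ∀ᶠ n : ℕ in atTop, Tame (f.comp (g.comp^[n] X) + C s)} ≤ dimH (bad g)) ∧
    ∃ c : ℝ, 0 < c ∧ ∀ f : ℂ[X], 1 ≤ f.natDegree → ∀ S : ℝ, ∃ K : ℝ, ∀ n : ℕ,
      volume {s ∈ Metric.closedBall (0 : ℂ) S | ¬ Tame (f.comp (g.comp^[n] X) + C s)} ≤
        ENNReal.ofReal (K * Real.exp (-(c * n))) := by
  have hyp' : Pool.Agent.H400R3.HI.Hyp g := hyp
  obtain ⟨d, -, hd2, hdim, c, hc, h⟩ := Pool.Agent.Q186.AZ.rate hg hyp'
  have key : ∀ (f : ℂ[X]), 1 ≤ f.natDegree → ∀ (s : ℂ) (n : ℕ), 1 ≤ n →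
      Pool.Agent.H400R3.HI.Hyp (f.comp (g.comp^[n] X) + C s) →
        Tame (f.comp (g.comp^[n] X) + C s) := by
    intro f hf s n hn hh
    refine tame_of ?_ hh
    rw [natDegree_add_C]
    exact degree_two hf hg hn
  refine ⟨⟨d, hd2, hdim⟩, fun f hf => ?_, c, hc, fun f hf S => ?_⟩
  · have hsub : {s : ℂ | ¬ ∀ᶠ n : ℕ in atTop, Tame (f.comp (g.comp^[n] X) + C s)} ⊆
        {s : ℂ | ¬ ∀ᶠ n : ℕ in atTop,
          Pool.Agent.H400R3.HI.Hyp (f.comp (g.comp^[n] X) + C s)} := by
      intro s hs hcon
      apply hs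
      filter_upwards [hcon, eventually_ge_atTop 1] with n hn hn1 using key f hf s n hn1 hn
    exact (dimH_mono hsub).trans (Pool.Agent.Q186.AZ.dim_exc hg hyp' hf)
  · obtain ⟨K, hK⟩ := h f hf S
    refine ⟨max K (volume (Metric.closedBall (0 : ℂ) S)).toReal, fun n => ?_⟩
    rcases Nat.eq_zero_or_pos n with hn | hn
    · subst hn
      refine (measure_mono (fun s hs => hs.1 : _ ⊆ Metric.closedBall (0 : ℂ) S)).trans ?_
      refine (ENNReal.ofReal_toReal
        (measure_closedBall_lt_top (μ := volume) (x := (0 : ℂ)) (r := S)).ne).symm.le.trans ?_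
      refine ENNReal.ofReal_le_ofReal ?_
      simp only [Nat.cast_zero, mul_zero, neg_zero, Real.exp_zero, mul_one]
      exact le_max_right _ _
    · refine (measure_mono fun s hs => ?_).trans ((hK n).trans (ENNReal.ofReal_le_ofReal ?_))
      · exact ⟨hs.1, fun hh => hs.2 (key f hf s n hn hh)⟩
      · exact mul_le_mul_of_nonneg_right (le_max_left _ _) (Real.exp_pos _).le

end Pool.Agent.Results.MP_70a088_an.IteratesExponentialRate
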