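import Mathlib
import Pool.Agent.Q186.AZ.Pow2
import Pool.Agent.Q186.AZ.Jul

/-!
# The polynomials `P (z ^ n)` have no invariant line fields, for almost all exponents `n`

Let `P` be any polynomial of positive degree, and let `T_n (z) = P (z ^ n)`. Call `n` exceptional
(for `δ`) if the orbit under `T_n` of some critical value of `T_n` passes through roots of unity
until it arrives at a point of the unit circle which is not a root of unity and whose image has
distance at most `δ` from the unit circle. We take `δ = C log n / n`, where `C` depends on `P`.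

(1) For all large `n` which are not exceptional, and for which the critical point `0` does not land
on a repelling cycle of roots of unity (for example if `P 0` is not a root of unity), every critical
point of `T_n` escapes, or is attracted by a sink, or lands on a repelling cycle; almost every point
of the plane escapes or is attracted by a sink; so the Julia set of `T_n` has area zero and `T_n` has
no invariant line field on its Julia set.

(2) The number of exceptional `n` in the intervals `[N, N + L)` is bounded, for `N ≥ N₀ (L)`, by a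
constant which does not depend on `L`.

(3) So if `P 0` is not a root of unity then the set of the exponents `n` for which the Julia set of
`P (z ^ n)` has area zero and carries no invariant line field has density one.

Here `T_n` need not be hyperbolic: the critical values which are roots of unity are not excluded, and
may belong to the Julia set for all `n` in whole residue classes.

(4) For instance, none of the polynomials `1 + (z ^ n - 1) (z ^ n - 2) ^ 2`, `n ≥ 2`, is hyperbolic,
and for all large `n` their Julia sets have area zero and carry no invariant line fields.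
-/

set_option autoImplicit false

open MeasureTheory Filter Topology Polynomial

namespace Pool.Agent.Results.MP_70a088_an.PowersOfVariable

/-- The polynomial as a self-map of the plane. -/
def map (T : ℂ[X]) : ℂ → ℂ := fun z : ℂ => T.eval z

/-- The orbit of `z` escapes to infinity. -/
def Escapes (T : ℂ[X]) (z : ℂ) : Prop :=
  Tendsto (fun k : ℕ => ‖(map T)^[k] z‖) atTop atTop

/-- The orbit of `z` is attracted by a sink (attracting periodic point) of `T`. -/
def Attracted (T : ℂ[X]) (z : ℂ) : Prop :=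
  ∃ n : ℕ, 0 < n ∧ ∃ x : ℂ, (map T)^[n] x = x ∧ ‖deriv ((map T)^[n]) x‖ < 1 ∧
    Tendsto (fun k : ℕ => (map T)^[n * k] z) atTop (𝓝 x)

/-- The orbit of `c` lands on a repelling periodic point. -/
def Lands (T : ℂ[X]) (c : ℂ) : Prop :=
  ∃ k p : ℕ, 0 < p ∧ (map T)^[p] ((map T)^[k] c) = (map T)^[k] c ∧
    1 < ‖deriv ((map T)^[p]) ((map T)^[k] c)‖

/-- `T` is hyperbolic: every critical point escapes or is attracted by a sink. -/
def Hyperbolic (T : ℂ[X]) : Prop :=
  ∀ c : ℂ, (derivative T).eval c = 0 → Escapes T c ∨ Attracted T c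

/-- The Julia set: the boundary of the set of the points whose orbits do not tend to infinity. -/
def julia (T : ℂ[X]) : Set ℂ := frontier {z : ℂ | ¬ Escapes T z}

/-- `μ` is an invariant line field supported on the Julia set of `T`; it is of absolute value one on
the set `S` of positive measure, and vanishes off `S`. -/
structure LineField (T : ℂ[X]) (μ : ℂ → ℂ) (S : Set ℂ) : Prop where
  meas : Measurable μ
  one : ∀ z ∈ S, ‖μ z‖ = 1
  off : ∀ z, z ∉ S → μ z = 0
  pos : 0 < volume S
  sub : S ⊆ julia T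
  inv : ∀ᵐ z : ℂ, μ (map T z) * (starRingEnd ℂ (deriv (map T) z) / deriv (map T) z) = μ z

/-- `T` has an invariant line field supported on its Julia set. -/
def HasLineField (T : ℂ[X]) : Prop := ∃ (μ : ℂ → ℂ) (S : Set ℂ), LineField T μ S

/-- `v` is a critical value of the polynomials `P (z ^ n)`, `n ≥ 2`. -/
def CriticalValue (P : ℂ[X]) (v : ℂ) : Prop :=
  v = P.eval 0 ∨ ∃ y : ℂ, (derivative P).eval y = 0 ∧ v = P.eval y

/-- `x` is a root of unity. -/
def RootOfUnity (x : ℂ) : Prop := ∃ k : ℕ, 0 < k ∧ x ^ k = 1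

/-- The orbit of some critical value leaves the roots of unity at a point of the unit circle whose
image has distance at most `δ` from the unit circle. -/
def Exceptional (P : ℂ[X]) (δ : ℝ) (n : ℕ) : Prop :=
  ∃ v : ℂ, CriticalValue P v ∧ ∃ j : ℕ, (∀ i < j, RootOfUnity ((map (expand ℂ n P))^[i] v)) ∧
    ‖(map (expand ℂ n P))^[j] v‖ = 1 ∧ ¬ RootOfUnity ((map (expand ℂ n P))^[j] v) ∧
    |‖(map (expand ℂ n P))^[j + 1] v‖ - 1| ≤ δ

/-- The orbit of the value at the critical point `0` consists of roots of unity and contains only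
finitely many critical points of `P (z ^ n)`. -/
def ZeroLands (P : ℂ[X]) (n : ℕ) : Prop :=
  (∀ j : ℕ, RootOfUnity ((map (expand ℂ n P))^[j] (P.eval 0))) ∧
    ∃ J : ℕ, ∀ j, J ≤ j → (derivative P).eval (((map (expand ℂ n P))^[j] (P.eval 0)) ^ n) ≠ 0

/-- Almost every point of the plane escapes or is attracted by a sink, and the Julia set has area
zero and carries no invariant line field. -/
def Tame (T : ℂ[X]) : Prop :=
  (∀ᵐ z : ℂ, Escapes T z ∨ Attracted T z) ∧ volume (julia T) = 0 ∧ ¬ HasLineField T

/-- The polynomial `1 + (z - 1) (z - 2) ^ 2`. -/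
noncomputable def ex : ℂ[X] := 1 + (X - 1) * (X - C 2) ^ 2

theorem tame_of {T : ℂ[X]} (hT : 2 ≤ T.natDegree)
    (h : ∀ c : ℂ, (derivative T).eval c = 0 → (Escapes T c ∨ Attracted T c) ∨ Lands T c) :
    Tame T := by
  have h1 : volume {z : ℂ | ¬ (Escapes T z ∨ Attracted T z)} = 0 :=
    Pool.Agent.Q186.AZ.poly_null hT h
  have h2 : volume (julia T) = 0 := by
    refine measure_mono_null (fun z hz => ?_) h1
    exact Pool.Agent.Q186.AZ.julia_sub hT hz
  refine ⟨?_, h2, ?_⟩
  · rw [ae_iff]; exact h1
  · rintro ⟨μ, S, hS⟩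
    exact hS.pos.ne' (measure_mono_null hS.sub h2)

theorem ex_eval (x : ℂ) : ex.eval x = 1 + (x - 1) * (x - 2) ^ 2 := by simp [ex]

theorem ex_der (x : ℂ) : (derivative ex).eval x = (x - 2) * (3 * x - 4) := by
  simp only [ex, derivative_add, derivative_mul, derivative_sub, derivative_X, derivative_one,
    derivative_C, derivative_pow, eval_add, eval_mul, eval_sub, eval_X, eval_one, eval_zero,
    eval_C, eval_pow]
  norm_num
  ring

theorem ex_natDegree : 1 ≤ ex.natDegree := by
  by_contra h
  have h0 : ex.natDegree = 0 := by omega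
  have h1 := ex_der 1
  rw [eq_C_of_natDegree_eq_zero h0] at h1
  simp at h1
  norm_num at h1

theorem RootOfUnity.norm {x : ℂ} (h : RootOfUnity x) : ‖x‖ = 1 := by
  obtain ⟨k, hk, h1⟩ := h
  exact Complex.norm_eq_one_of_pow_eq_one h1 hk.ne'

/-- Orbits starting off the unit circle are not exceptional. -/
theorem not_exc {P : ℂ[X]} {n : ℕ} {δ : ℝ}
    (h : ∀ v, CriticalValue P v → ‖v‖ ≠ 1 ∨ ∀ j, RootOfUnity ((map (expand ℂ n P))^[j] v)) :
    ¬ Exceptional P δ n := by
  rintro ⟨v, hv, j, h1, h2, h3, -⟩
  rcases h v hv with h4 | h4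
  · rcases Nat.eq_zero_or_pos j with rfl | hj
    · exact h4 h2
    · exact h4 (h1 0 hj).norm
  · exact h3 (h4 j)

theorem ex_map (n : ℕ) (x : ℂ) : map (expand ℂ n ex) x = 1 + (x ^ n - 1) * (x ^ n - 2) ^ 2 := by
  rw [← ex_eval]
  simp [map, expand_eval]

theorem ex_fix (n : ℕ) (j : ℕ) : (map (expand ℂ n ex))^[j] 1 = 1 := by
  refine Function.iterate_fixed ?_ j
  rw [ex_map]
  simp

theorem ex_deriv (n : ℕ) : deriv (map (expand ℂ n ex)) 1 = n := by
  have h : deriv (map (expand ℂ n ex)) 1 = (derivative (expand ℂ n ex)).eval 1 :=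
    Polynomial.deriv _
  rw [h, Pool.Agent.Q186.AZ.derivative_expand_eval, one_pow, one_pow, ex_der]
  norm_num

theorem ex_not_hyp {n : ℕ} (hn : 2 ≤ n) : ¬ Hyperbolic (expand ℂ n ex) := by
  intro h
  obtain ⟨c, hc⟩ := IsAlgClosed.exists_pow_nat_eq (2 : ℂ) (show 0 < n by omega)
  have h1 : map (expand ℂ n ex) c = 1 := by
    rw [ex_map, hc]
    norm_num
  have h2 : ∀ k : ℕ, (map (expand ℂ n ex))^[k + 1] c = 1 := by
    intro k
    rw [Function.iterate_succ_apply, h1, ex_fix]
  have h3 : (derivative (expand ℂ n ex)).eval c = 0 := by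
    rw [Pool.Agent.Q186.AZ.derivative_expand_eval, hc, ex_der]
    norm_num
  rcases h c h3 with h4 | ⟨m, hm, x, hx, hd, ht⟩
  · obtain ⟨k, hk1, hk2⟩ := ((h4.eventually_gt_atTop 1).and (eventually_ge_atTop 1)).exists
    obtain ⟨j, rfl⟩ : ∃ j, k = j + 1 := ⟨k - 1, by omega⟩
    rw [h2, norm_one] at hk1
    exact lt_irrefl _ hk1
  · have hx1 : x = 1 := by
      refine tendsto_nhds_unique ht ((tendsto_const_nhds (x := (1 : ℂ))).congr' ?_)
      filter_upwards [eventually_ge_atTop 1] with k hk
      have : m * k = (m * k - 1) + 1 := by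
        have : 1 ≤ m * k := Nat.mul_pos hm hk
        omega
      rw [this, h2]
    have hD : Differentiable ℂ (map (expand ℂ n ex)) := (expand ℂ n ex).differentiable
    have h5 : HasDerivAt (map (expand ℂ n ex)) (n : ℂ) 1 := by
      rw [← ex_deriv n]; exact (hD 1).hasDerivAt
    have h6 := (HasDerivAt.iterate (1 : ℂ) h5 (ex_fix n 1) m).deriv
    rw [hx1, h6, norm_pow, Complex.norm_natCast] at hd
    have h7 : (1 : ℝ) ≤ (n : ℝ) ^ m := one_le_pow₀ (by exact_mod_cast (by omega : 1 ≤ n))
    linarith

theorem ex_crit (n : ℕ) {v : ℂ} (hv : CriticalValue ex v) :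
    ‖v‖ ≠ 1 ∨ ∀ j, RootOfUnity ((map (expand ℂ n ex))^[j] v) := by
  have key : ∀ r : ℝ, v = (r : ℂ) → |r| ≠ 1 → ‖v‖ ≠ 1 := by
    intro r hr h1
    rw [hr, Complex.norm_real, Real.norm_eq_abs]
    exact h1
  rcases hv with h | ⟨y, hy, h⟩
  · left
    refine key (-3) ?_ (by norm_num)
    rw [h, ex_eval]
    push_cast
    norm_num
  · rw [ex_der, mul_eq_zero] at hy
    rcases hy with hy | hy
    · right
      intro j
      have h1 : v = 1 := by
        rw [h, ex_eval, hy]
        norm_num
      rw [h1, ex_fix]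
      exact ⟨1, one_pos, one_pow 1⟩
    · left
      refine key (31 / 27) ?_ (by norm_num)
      have hy2 : y = 4 / 3 := by linear_combination hy / 3
      rw [h, ex_eval, hy2]
      push_cast
      norm_num

/-- **No invariant line fields for the polynomials `P (z ^ n)`.** -/
theorem result :
    (∀ P : ℂ[X], 1 ≤ P.natDegree →
      ∃ (C : ℝ) (n₀ K : ℕ),
        (∀ n, n₀ ≤ n → ¬ Exceptional P (C * (Real.log n / n)) n → ¬ ZeroLands P n →
          (∀ c : ℂ, (derivative (expand ℂ n P)).eval c = 0 →
            Escapes (expand ℂ n P) c ∨ Attracted (expand ℂ n P) c ∨ Lands (expand ℂ n P) c) ∧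
          Tame (expand ℂ n P)) ∧
        (∀ L : ℕ, ∃ N₀ : ℕ, ∀ N, N₀ ≤ N →
          ({n : ℕ | Exceptional P (C * (Real.log n / n)) n} ∩ Set.Ico N (N + L)).ncard ≤ K) ∧
        (¬ RootOfUnity (P.eval 0) →
          Tendsto (fun N : ℕ => (({n : ℕ | Tame (expand ℂ n P)} ∩ Set.Iio N).ncard : ℝ) / N)
            atTop (𝓝 1))) ∧
    (∀ n : ℕ, 2 ≤ n → ¬ Hyperbolic (expand ℂ n ex)) ∧
    (∀ᶠ n : ℕ in atTop, Tame (expand ℂ n ex)) := by
  have main : ∀ P : ℂ[X], 1 ≤ P.natDegree →
      ∃ (C : ℝ) (n₀ K : ℕ),
        (∀ n, n₀ ≤ n → ¬ Exceptional P (C * (Real.log n / n)) n → ¬ ZeroLands P n →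
          (∀ c : ℂ, (derivative (expand ℂ n P)).eval c = 0 →
            Escapes (expand ℂ n P) c ∨ Attracted (expand ℂ n P) c ∨ Lands (expand ℂ n P) c) ∧
          Tame (expand ℂ n P)) ∧
        (∀ L : ℕ, ∃ N₀ : ℕ, ∀ N, N₀ ≤ N →
          ({n : ℕ | Exceptional P (C * (Real.log n / n)) n} ∩ Set.Ico N (N + L)).ncard ≤ K) ∧
        (¬ RootOfUnity (P.eval 0) →
          Tendsto (fun N : ℕ => (({n : ℕ | Tame (expand ℂ n P)} ∩ Set.Iio N).ncard : ℝ) / N)
            atTop (𝓝 1)) := by
    intro P hP
    by_cases hne : ∃ u : ℂ, ‖u‖ = 1 ∧ ‖P.eval u‖ ≠ 1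
    · obtain ⟨C, n₀, hn₀, h⟩ := Pool.Agent.Q186.AZ.pow_class hP hne
      have hD1 : 0 < P.natDegree := hP
      obtain ⟨K, hK⟩ := Pool.Agent.TH864.ZO.exc_window (P := P) (Q := 1) (D := P.natDegree)
        isCoprime_one_right (by simpa using hP) (by simpa using hne)
      have hK' := hK C
      simp only [Pool.Agent.Q186.Hyp.exc_iff hD1] at hK'
      have hK'' : ∀ L : ℕ, ∃ N₀ : ℕ, ∀ N, N₀ ≤ N →
          ({n : ℕ | Exceptional P (C * (Real.log n / n)) n} ∩ Set.Ico N (N + L)).ncard ≤ K := hK'
      have h1 : ∀ n, n₀ ≤ n → ¬ Exceptional P (C * (Real.log n / n)) n → ¬ ZeroLands P n →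
          ∀ c : ℂ, (derivative (expand ℂ n P)).eval c = 0 →
            (Escapes (expand ℂ n P) c ∨ Attracted (expand ℂ n P) c) ∨
              Lands (expand ℂ n P) c := h
      have h2 : ∀ n, n₀ ≤ n → ¬ Exceptional P (C * (Real.log n / n)) n → ¬ ZeroLands P n →
          Tame (expand ℂ n P) := fun n hn he hz =>
        tame_of (Pool.Agent.Q186.Hyp.natDegree_expand_ge hP (hn₀.trans hn)) (h1 n hn he hz)
      refine ⟨C, n₀, K, fun n hn he hz => ⟨fun c hc => or_assoc.mp (h1 n hn he hz c hc),
        h2 n hn he hz⟩, hK'', fun h0 => ?_⟩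
      have h4 := Pool.Agent.TH864.ZO.density_periodic (M := 1) one_pos (p := fun _ => True)
        (H := {n : ℕ | Tame (expand ℂ n P)})
        (S := {n : ℕ | Exceptional P (C * (Real.log n / n)) n}) (n₀ := n₀) (fun _ _ _ => Iff.rfl)
        (Pool.Agent.TH864.ZO.density_of_window hK'') (fun n hn hS =>
          ⟨fun _ => trivial, fun _ => h2 n hn hS fun hz => h0 (hz.1 0)⟩)
      have h5 : {a : ℕ | a < 1 ∧ True} = {0} := by ext a; simp
      rw [h5, Set.ncard_singleton] at h4
      simpa using h4
    · push Not at hne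
      have h1 : ∀ n, 2 ≤ n → Tame (expand ℂ n P) := fun n hn =>
        tame_of (Pool.Agent.Q186.Hyp.natDegree_expand_ge hP hn) fun c hc =>
          Or.inl (Pool.Agent.Q186.Hyp.hyp_circle hP hne hn c hc)
      refine ⟨0, 2, 0, fun n hn _ _ => ⟨fun c hc => ?_, h1 n hn⟩, ?_, fun _ => ?_⟩
      · rcases Pool.Agent.Q186.Hyp.hyp_circle hP hne hn c hc with h | h
        · exact Or.inl h
        · exact Or.inr (Or.inl h)
      · intro L
        refine ⟨0, fun N _ => ?_⟩
        have h2 : ∀ n δ, ¬ Exceptional P δ n := by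
          intro n δ
          obtain ⟨c, -, hc⟩ := Pool.Agent.Q186.Hyp.monomial_of hne
          refine not_exc fun v hv => Or.inl ?_
          have hv0 : v = 0 := by
            rcases hv with h | ⟨y, hy, h⟩
            · rw [h, hc]
              simp [show P.natDegree ≠ 0 by omega]
            · have hc0 : c ≠ 0 := by
                rintro rfl
                rw [C_0, zero_mul] at hc
                rw [hc, natDegree_zero] at hP
                omega
              rw [hc] at hy
              simp only [derivative_mul, derivative_C, derivative_X_pow, zero_mul, zero_add,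
                eval_mul, eval_C, eval_pow, eval_X, mul_eq_zero, pow_eq_zero_iff', hc0,
                Nat.cast_eq_zero, false_or] at hy
              rcases hy with hy | ⟨hy, -⟩
              · omega
              · rw [h, hy, hc]
                simp [show P.natDegree ≠ 0 by omega]
          rw [hv0, norm_zero]
          norm_num
        have h3 : {n : ℕ | Exceptional P (0 * (Real.log n / n)) n} ∩ Set.Ico N (N + L) = ∅ := by
          ext n
          simp [h2]
        rw [h3, Set.ncard_empty]
      · exact Pool.Agent.Q186.Hyp.density_one_of (n₀ := 2) h1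
  refine ⟨main, fun n hn => ex_not_hyp hn, ?_⟩
  obtain ⟨C, n₀, K, h, -⟩ := main ex ex_natDegree
  filter_upwards [eventually_ge_atTop n₀] with n hn
  refine (h n hn (not_exc fun v hv => ex_crit n hv) ?_).2
  rintro ⟨h1, -⟩
  have h2 := (h1 0).norm
  rw [Function.iterate_zero, id, ex_eval] at h2
  have h3 : (1 + (0 - 1) * (0 - 2) ^ 2 : ℂ) = ((-3 : ℝ) : ℂ) := by push_cast; norm_num
  rw [h3, Complex.norm_real, Real.norm_eq_abs] at h2
  norm_num at h2

end Pool.Agent.Results.MP_70a088_an.PowersOfVariable
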